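import Pool.Agent.H315R2.Sq.Defs

/-! # A1: basic facts on reduced pairs -/

open Polynomial Finset
open scoped Classical Pointwise

namespace H315

variable {G G' Q : Type} [AddCommGroup G] [AddCommGroup G'] [AddCommGroup Q]

/-- every pair of nonempty sets contains a reduced pair with at most the same ratio -/
theorem exists_red (α : ℝ) (A B : Finset G) (hA : A.Nonempty) (hB : B.Nonempty) :
    ∃ A' ⊆ A, ∃ B' ⊆ B, Red α A' B' ∧ ratio α A' B' ≤ ratio α A B := by
  sorry

theorem ratio_image (α : ℝ) (f : G →+ G') (hf : Function.Injective f) (c : G')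
    (A B : Finset G) :
    ratio α (A.image f) (B.image (fun b => f b + c)) = ratio α A B := by
  sorry

theorem red_image_iff (α : ℝ) (f : G →+ G') (hf : Function.Injective f) (c : G')
    (A B : Finset G) :
    Red α (A.image f) (B.image (fun b => f b + c)) ↔ Red α A B := by
  sorry

theorem card_rpow_neg_le_ratio (α : ℝ) (hα : 0 < α) (hα' : α < 1) (A B : Finset G)
    (hA : A.Nonempty) (hB : B.Nonempty) : (A.card : ℝ) ^ (-α) ≤ ratio α A B := by
  sorry

/-- the local inequality -/
theorem local_ineq (α : ℝ) (hα : 0 < α) (φ : G →+ Q) (A B : Finset G) (h : Red α A B)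
    (I : Finset (Q × Q)) (hI : Set.InjOn (fun x : Q × Q => x.1 + x.2) (I : Set (Q × Q))) :
    ∑ x ∈ I, (frac φ A x.1 * frac φ B x.2) ^ α ≤ 1 := by
  sorry

/-- the local inequality is symmetric in `A` and `B` -/
theorem red_symm (α : ℝ) (A B : Finset G) (h : Red α A B) : Red α B A := by
  sorry

theorem const_of_const (α : ℝ) (hα : 0 < α) (hα' : α < 1) (φ : G →+ Q) (A B : Finset G)
    (h : Red α A B) (κ : Q) (hc : ∀ s ∈ A, φ s = κ) : ∀ b ∈ B, ∀ b' ∈ B, φ b = φ b' := by
  sorry

end H315
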