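import Pool.Agent.H315R2.Sq.Defs
import Pool.Agent.H315R2.Sq.St.A1

/-! # B: pigeonhole -/

open Polynomial Finset
open scoped Classical Pointwise

namespace H315

/-- If the pair `(A,B)` has ratio `≤ 1` and `α` is close to `1/2`, then a positive proportion `q`
of all `N`-tuples of elements of `A` has many members of the form `T - b`. -/
theorem pigeonhole {G : Type} [AddCommGroup G] (N : ℕ) (hN : 2 ≤ N) (α : ℝ) (hα : 1 / 2 < α)
    (hα' : α ≤ 1 / 2 + 1 / (10 * N)) (A B : Finset G) (hA : A.Nonempty) (hB : B.Nonempty)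
    (hr : ratio α A B ≤ 1) (S : Finset (Fin N → G)) (hS : ∀ s ∈ S, ∀ j, s j ∈ A)
    (q : ℝ) (hq : 0 ≤ q) (hqS : q * (A.card : ℝ) ^ N ≤ (S.card : ℝ)) :
    ∃ T : Fin N → G,
      q * (A.card : ℝ) ^ ((1 : ℝ) / 2) ≤ ((B.filter (fun b => (fun j => T j - b) ∈ S)).card : ℝ) := by
  sorry

/-- `|A|` is large when the ratio is small. -/
theorem card_large {G : Type} [AddCommGroup G] (n : ℕ) : ∃ r₀ : ℝ, 0 < r₀ ∧ r₀ ≤ 1 ∧
    ∀ α : ℝ, 1 / 2 < α → α ≤ 3 / 5 → ∀ A B : Finset G, A.Nonempty → B.Nonempty →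
    ratio α A B ≤ r₀ → n ≤ A.card := by
  sorry

end H315
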