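import Pool.Agent.H315R2.Sq.Defs

/-! # C1: the map `psi` -/

open Polynomial Finset
open scoped Classical Pointwise

namespace H315

variable {k : Type} [Field k]

/-- `psi` as an additive map -/
theorem psi_add (D : ℕ) (a : k) (f g : k[X]) : psi D a (f + g) = psi D a f + psi D a g := by
  sorry

theorem psi_sub (D : ℕ) (a : k) (f g : k[X]) : psi D a (f - g) = psi D a f - psi D a g := by
  sorry

theorem psi_zero (D : ℕ) (a : k) : psi D a (0 : k[X]) = 0 := by
  sorry

theorem psi_C_mul (D : ℕ) (a c : k) (f : k[X]) : psi D a (C c * f) = C c * psi D a f := by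
  sorry

theorem psi_injective (D : ℕ) (a : k) : Function.Injective (psi D a) := by
  sorry

theorem natDegree_psi_le (D : ℕ) (a : k) (f : k[X]) (hf : f.natDegree ≤ D) :
    (psi D a f).natDegree ≤ D := by
  sorry

theorem natDegree_psi (D : ℕ) (a : k) (f : k[X]) (hf : f.natDegree ≤ D) (h : f.eval a ≠ 0) :
    (psi D a f).natDegree = D := by
  sorry

theorem isSquare_psi (D : ℕ) (hD : Even D) (a : k) (f : k[X]) (hf : f.natDegree ≤ D)
    (h : IsSquare f) : IsSquare (psi D a f) := by
  sorry

theorem wronskian_psi (D : ℕ) (hD : 1 ≤ D) (a : k) (f g : k[X]) (hf : f.natDegree ≤ D)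
    (hg : g.natDegree ≤ D) : wronskian (psi D a f) (psi D a g) = 0 ↔ wronskian f g = 0 := by
  sorry

end H315
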