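import Pool.Agent.H315R2.Sq.Defs
import Pool.Agent.H315R2.Sq.St.C1

/-! # C2: the two stable properties -/

open Polynomial Finset
open scoped Classical Pointwise

namespace H315

variable {k : Type} [Field k]

theorem stable_sq (p : ℕ) [Fact p.Prime] (hp : 3 ≤ p) [CharP k p] [IsAlgClosed k] :
    Stable p (fun A : Finset k[X] => SqSet p A) := by
  sorry

theorem stable_pencil (p : ℕ) [Fact p.Prime] (hp : 3 ≤ p) [CharP k p] [IsAlgClosed k] :
    Stable p (fun A : Finset k[X] => SqSet p A ∧ Pencil A) := by
  sorry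

theorem SqSet.subset {p : ℕ} {A A' : Finset k[X]} (h : SqSet p A) (hA : A' ⊆ A) : SqSet p A' := by
  sorry

end H315
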