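import Pool.Agent.H315R2.Sq.Defs
import Pool.Agent.H315R2.Sq.St.A1
import Pool.Agent.H315R2.Sq.St.C1
import Pool.Agent.H315R2.Sq.St.C2

/-! # C3: the normal form -/

open Polynomial Finset
open scoped Classical Pointwise

namespace H315

variable {k : Type} [Field k]

theorem normal_form (p : ℕ) [Fact p.Prime] (hp : 3 ≤ p) [CharP k p] [IsAlgClosed k]
    (P : Finset k[X] → Prop) (hP : Stable p P) (α r₀ : ℝ) (hα : 1 / 2 < α) (hα' : α ≤ 3 / 5)
    (hr₀ : r₀ < 1 / (p : ℝ)) (A B : Finset k[X]) (h : Red α A B) (hr : ratio α A B ≤ r₀)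
    (hA : P A) :
    ∃ (D : ℕ) (A' B' : Finset k[X]), NF p α D A' B' ∧ ratio α A' B' ≤ r₀ ∧ P A' := by
  sorry

end H315
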