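import Pool.Agent.H315R2.Sq.Defs

/-! # D1: root multiplicities and Wronskians -/

open Polynomial Finset
open scoped Classical Pointwise

namespace H315

variable {k : Type} [Field k]

/-- `∑ₐ vₐ(f) = deg f`, summed over any finite set containing the roots -/
theorem sum_rootMultiplicity [IsAlgClosed k] (f : k[X]) (hf : f ≠ 0) (Z : Finset k)
    (hZ : ∀ a, f.IsRoot a → a ∈ Z) : ∑ a ∈ Z, f.rootMultiplicity a = f.natDegree := by
  sorry

theorem sum_rootMultiplicity_le (f : k[X]) (hf : f ≠ 0) (Z : Finset k) :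
    ∑ a ∈ Z, f.rootMultiplicity a ≤ f.natDegree := by
  sorry

/-- `vₐ(W(f,g)) ≥ vₐ f + vₐ g - 1` -/
theorem le_rootMultiplicity_wronskian (f g : k[X]) (hW : wronskian f g ≠ 0) (a : k) :
    f.rootMultiplicity a + g.rootMultiplicity a ≤ (wronskian f g).rootMultiplicity a + 1 := by
  sorry

/-- if `vₐ f = vₐ g` in `k` one gains one -/
theorem le_rootMultiplicity_wronskian' (f g : k[X]) (hW : wronskian f g ≠ 0) (a : k)
    (h : (f.rootMultiplicity a : k) = (g.rootMultiplicity a : k)) :
    f.rootMultiplicity a + g.rootMultiplicity a ≤ (wronskian f g).rootMultiplicity a := by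
  sorry

theorem rootMultiplicity_eq_of_wronskian (f g : k[X]) (hf : f ≠ 0) (hg : g ≠ 0)
    (hW : wronskian f g = 0) (a : k) :
    (f.rootMultiplicity a : k) = (g.rootMultiplicity a : k) := by
  sorry

theorem derivative_eq_zero_of_dvd (p : ℕ) [Fact p.Prime] [CharP k p] [IsAlgClosed k] (f : k[X])
    (h : ∀ a, p ∣ f.rootMultiplicity a) : derivative f = 0 := by
  sorry

theorem even_rootMultiplicity (f : k[X]) (hf : IsSquare f) (a : k) :
    Even (f.rootMultiplicity a) := by
  sorry

/-- Jacobi/Plücker identity -/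
theorem wronskian_jacobi (f g h : k[X]) :
    wronskian f g * h + wronskian g h * f + wronskian h f * g = 0 := by
  sorry

end H315
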