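import Pool.Agent.H315R2.Sq.Defs
import Pool.Agent.H315R2.Sq.St.D1

/-! # D2: the cross lemma -/

open Polynomial Finset
open scoped Classical Pointwise

namespace H315

variable {k : Type} [Field k]

theorem cross_lemma (p : ℕ) [Fact p.Prime] (hp : 3 ≤ p) [CharP k p] [IsAlgClosed k]
    (s₁ s₂ : k[X]) (h₁ : IsSquare s₁) (h₂ : IsSquare s₂) (h10 : s₁ ≠ 0) (h20 : s₂ ≠ 0)
    (hW : wronskian s₁ s₂ ≠ 0) (Λ : Finset (k × ℕ)) :
    (Λ.filter (fun l => Cross p l s₁ s₂)).card ≤ (Rt p s₁).card + (Rt p s₂).card := by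
  sorry

end H315
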