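import Pool.Agent.H315R2.Sq.Defs
import Pool.Agent.H315R2.Sq.St.A1

/-! # A2: the local lemma -/

open Polynomial Finset
open scoped Classical Pointwise

namespace H315

theorem local_lemma (η δ : ℝ) (hη : 0 < η) (hδ : 0 < δ) :
    ∃ ε₀ : ℝ, 0 < ε₀ ∧ ε₀ ≤ 1 / 10 ∧ ∀ α : ℝ, 1 / 2 < α → α ≤ 1 / 2 + ε₀ →
    ∀ (G Q : Type) [AddCommGroup G] [AddCommGroup Q] (φ : G →+ Q) (A B : Finset G),
    Red α A B → ∀ κ : Q, η ≤ frac φ A κ →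
    ∃ H : AddSubgroup Q, (H : Set Q).Finite ∧
      (∀ h ∈ H, (1 - δ) / (Nat.card H : ℝ) ≤ frac φ A (κ + h)) ∧
      (∀ κ' : Q, frac φ A κ' ≤ (1 + δ) / (Nat.card H : ℝ)) ∧
      (Nat.card H = 1 → ∀ s ∈ A, φ s = κ) := by
  sorry

end H315
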