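import Pool.Agent.H315R2.Sq.Defs
import Pool.Agent.H315R2.Sq.St.A2

/-! # A3: the local lemma for groups of exponent `p ≥ 5` -/

open Polynomial Finset
open scoped Classical Pointwise

namespace H315

theorem local_p (η : ℝ) (hη : 0 < η) :
    ∃ ε₀ : ℝ, 0 < ε₀ ∧ ε₀ ≤ 1 / 10 ∧ ∀ α : ℝ, 1 / 2 < α → α ≤ 1 / 2 + ε₀ →
    ∀ (p : ℕ) [Fact p.Prime], 5 ≤ p →
    ∀ (G Q : Type) [AddCommGroup G] [AddCommGroup Q], (∀ q : Q, p • q = 0) →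
    ∀ (φ : G →+ Q) (A B : Finset G), Red α A B → ∀ κ : Q, η ≤ frac φ A κ →
    (∀ s ∈ A, φ s = κ) ∨
    ∃ H : AddSubgroup Q, (H : Set Q).Finite ∧ 5 ≤ Nat.card H ∧
      (∀ h ∈ H, (99 / 100 : ℝ) / (Nat.card H : ℝ) ≤ frac φ A (κ + h)) ∧
      (∀ κ' : Q, frac φ A κ' ≤ (101 / 100 : ℝ) / (Nat.card H : ℝ)) := by
  sorry

end H315
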