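import Pool.Agent.H315R2.Sq.Defs
import Pool.Agent.H315R2.Sq.St.A3
import Pool.Agent.H315R2.Sq.St.D1

/-! # E1: the densities `rho` -/

open Polynomial Finset
open scoped Classical Pointwise

namespace H315

variable {k : Type} [Field k]

theorem sum_rho_le (p : ℕ) (α : ℝ) (D : ℕ) (A B : Finset k[X]) (h : NF p α D A B)
    (Λ : Finset (k × ℕ)) (hΛ : ∀ l ∈ Λ, 1 ≤ l.2) : ∑ l ∈ Λ, rho A l ≤ (D : ℝ) / 2 := by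
  sorry

theorem rho_le (p : ℕ) [Fact p.Prime] (hp : 5 ≤ p) [CharP k p] [IsAlgClosed k] :
    ∃ ε₀ : ℝ, 0 < ε₀ ∧ ε₀ ≤ 1 / 10 ∧ ∀ α : ℝ, 1 / 2 < α → α ≤ 1 / 2 + ε₀ →
    ∀ (D : ℕ) (A B : Finset k[X]), NF p α D A B → ∀ l : k × ℕ, 1 ≤ l.2 → rho A l ≤ 21 / 100 := by
  sorry

theorem cross_prob (p : ℕ) [Fact p.Prime] (hp : 5 ≤ p) [CharP k p] [IsAlgClosed k]
    (η : ℝ) (hη : 0 < η) :
    ∃ ε₀ : ℝ, 0 < ε₀ ∧ ε₀ ≤ 1 / 10 ∧ ∀ α : ℝ, 1 / 2 < α → α ≤ 1 / 2 + ε₀ →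
    ∀ (D : ℕ) (A B : Finset k[X]), NF p α D A B → ∀ l : k × ℕ, 1 ≤ l.2 → η ≤ rho A l →
    31 / 10 * rho A l * (A.card : ℝ) ^ 2 ≤
      (((A ×ˢ A).filter (fun x => Cross p l x.1 x.2)).card : ℝ) := by
  sorry

end H315
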