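import Pool.Agent.H315R2.Sq.Defs
import Pool.Agent.H315R2.Sq.St.D2
import Pool.Agent.H315R2.Sq.St.E1

/-! # E2: summing the cross lemma -/

open Polynomial Finset
open scoped Classical Pointwise

namespace H315

variable {k : Type} [Field k]

theorem cross_sum (p : ℕ) [Fact p.Prime] (hp : 5 ≤ p) [CharP k p] [IsAlgClosed k]
    (η : ℝ) (hη : 0 < η) :
    ∃ ε₀ : ℝ, 0 < ε₀ ∧ ε₀ ≤ 1 / 10 ∧ ∀ α : ℝ, 1 / 2 < α → α ≤ 1 / 2 + ε₀ →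
    ∀ (D : ℕ) (A B : Finset k[X]), NF p α D A B → ∀ Λ : Finset (k × ℕ),
    (∀ l ∈ Λ, 1 ≤ l.2 ∧ η ≤ rho A l) →
    31 / 10 * ∑ l ∈ Λ, rho A l ≤
      2 * Rbar p A + (nW0 A : ℝ) / (A.card : ℝ) ^ 2 * ((D : ℝ) / (2 * η)) := by
  sorry

end H315
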