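import Pool.Agent.H315R2.Sq.Defs
import Pool.Agent.H315R2.Sq.St.C3
import Pool.Agent.H315R2.Sq.St.D1
import Pool.Agent.H315R2.Sq.St.E1

/-! # F: the pencil lemma -/

open Polynomial Finset
open scoped Classical Pointwise

namespace H315

variable {k : Type} [Field k]

theorem pencil_lemma (p : ℕ) [Fact p.Prime] (hp : 5 ≤ p) [CharP k p] [IsAlgClosed k] :
    ∃ ε₀ r₀ : ℝ, 0 < ε₀ ∧ 0 < r₀ ∧ ∀ α : ℝ, 1 / 2 < α → α ≤ 1 / 2 + ε₀ →
    ∀ A B : Finset k[X], Red α A B → SqSet p A → Pencil A → ratio α A B ≤ r₀ → False := by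
  sorry

/-- the same for a pair which is contained in a class `W(s,u) = κ ≠ 0` -/
theorem pencil_lemma' (p : ℕ) [Fact p.Prime] (hp : 5 ≤ p) [CharP k p] [IsAlgClosed k] :
    ∃ ε₀ r₀ : ℝ, 0 < ε₀ ∧ 0 < r₀ ∧ ∀ α : ℝ, 1 / 2 < α → α ≤ 1 / 2 + ε₀ →
    ∀ A B : Finset k[X], A.Nonempty → B.Nonempty → SqSet p A →
    ∀ (u κ : k[X]), κ ≠ 0 → (∀ s ∈ A, wronskian s u = κ) → ratio α A B ≤ r₀ → False := by
  sorry

end H315
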