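import Pool.Agent.H315R2.Sq.Defs
import Pool.Agent.H315R2.Sq.St.D1

/-! # G: the six point determinant -/

open Polynomial Finset
open scoped Classical Pointwise

namespace H315

variable {k : Type} [Field k]

theorem six_points (p : ℕ) [Fact p.Prime] [CharP k p] [IsAlgClosed k] (D : ℕ) (hD : 1 ≤ D)
    (t u : Fin 3 → k[X]) (ht : ∀ j, (t j).natDegree ≤ D) (hu : ∀ i, (u i).natDegree ≤ D)
    (hs : ∀ i j, (t j - u i).natDegree = D)
    (h : ∀ i, 3 * ((Rt p (t 0 - u i)).card + (Rt p (t 1 - u i)).card + (Rt p (t 2 - u i)).card +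
      ov (t 0 - u i) (t 1 - u i) + ov (t 0 - u i) (t 2 - u i) + ov (t 1 - u i) (t 2 - u i)) ≤ D) :
    (cmat (fun j => pt (t j)) (fun i => pt (u i))).det = 0 := by
  sorry

end H315
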