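import Pool.Agent.H315R2.Sq.Defs

/-! # H1: geometry of conics in the plane over a field -/

open Polynomial Finset
open scoped Classical Pointwise

namespace H315

variable {K : Type} [Field K]

/-- value of an affine linear form -/
def lval (l : Fin 3 → K) (x y : K) : K := l 0 * x + l 1 * y + l 2

/-- coefficients of the product of two affine linear forms -/
def lmul (l m : Fin 3 → K) : Fin 6 → K :=
  ![l 2 * m 2, l 0 * m 2 + l 2 * m 0, l 1 * m 2 + l 2 * m 1, l 0 * m 0,
    l 0 * m 1 + l 1 * m 0, l 1 * m 1]

theorem cval_lmul (l m : Fin 3 → K) (x y : K) :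
    cval (lmul l m) x y = lval l x y * lval m x y := by
  sorry

/-- a quadratic polynomial vanishing at three points of a line is divisible by the line -/
theorem line_factor (l : Fin 3 → K) (hl : l 0 ≠ 0 ∨ l 1 ≠ 0) (c : Fin 6 → K)
    (P : Fin 3 → K × K) (hP : Function.Injective P) (hon : ∀ i, lval l (P i).1 (P i).2 = 0)
    (hc : ∀ i, cval c (P i).1 (P i).2 = 0) : ∃ m : Fin 3 → K, c = lmul l m := by
  sorry

end H315
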