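import Pool.Agent.H315R2.Sq.Defs
import Pool.Agent.H315R2.Sq.St.H1

/-! # H2: conics through `3 + 3` points -/

open Polynomial Finset
open scoped Classical Pointwise

namespace H315

variable {K : Type} [Field K]

theorem conic_geometry (h2 : (2 : K) ≠ 0) (P : Fin 6 → K × K) (Q : Fin 7 → K × K)
    (hP : Function.Injective P) (hQ : Function.Injective Q)
    (hdet : ∀ (J : Fin 3 → Fin 6) (I : Fin 3 → Fin 7), Function.Injective J →
      Function.Injective I → (cmat (P ∘ J) (Q ∘ I)).det = 0)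
    (hcol : ∀ j l i, j ≠ l →
      ((P j).1 - (Q i).1) * ((P l).2 - (Q i).2) ≠ ((P l).1 - (Q i).1) * ((P j).2 - (Q i).2)) :
    ∃ c : Fin 6 → K, c ≠ 0 ∧ ∀ j, cval c (P j).1 (P j).2 = 0 := by
  sorry

end H315
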