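import Pool.Agent.H315R2.Sq.Defs
import Pool.Agent.H315R2.Sq.St.H1

/-! # H3: a conic with many points shared with a translate; hyperplanes containing many points -/

open Polynomial Finset
open scoped Classical Pointwise

namespace H315

variable {K : Type} [Field K]

theorem conic_two_lines (h2 : (2 : K) ≠ 0) (c : Fin 6 → K) (hc : c ≠ 0) (d : K × K) (hd : d ≠ 0)
    (P : Fin 3 → K × K) (hP : Function.Injective P)
    (h0 : ∀ i, cval c (P i).1 (P i).2 = 0)
    (h1 : ∀ i, cval c ((P i).1 + d.1) ((P i).2 + d.2) = 0) :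
    ∃ l m : Fin 3 → K, (l 0 ≠ 0 ∨ l 1 ≠ 0) ∧ (m 0 ≠ 0 ∨ m 1 ≠ 0) ∧
      ∀ x y, cval c x y = 0 → lval l x y = 0 ∨ lval m x y = 0 := by
  sorry

/-- translation of a conic -/
theorem conic_translate (c : Fin 6 → K) (hc : c ≠ 0) (d : K × K) :
    ∃ c' : Fin 6 → K, c' ≠ 0 ∧ ∀ x y, cval c' x y = cval c (x + d.1) (y + d.2) := by
  sorry

/-- if less than `1/64` of all `6`-tuples are independent, some hyperplane contains half of `A` -/
theorem greedy {ι : Type} (A : Finset ι) (v : ι → Fin 6 → K)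
    (h : 64 * ((Fintype.piFinset (fun _ : Fin 6 => A)).filter
      (fun s => LinearIndependent K (fun j => v (s j)))).card < A.card ^ 6) :
    ∃ c : Fin 6 → K, c ≠ 0 ∧ A.card ≤ 2 * (A.filter (fun a => c ⬝ᵥ v a = 0)).card := by
  sorry

end H315
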