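import Pool.Agent.H315R2.Sq.Defs

/-! # I1: Taylor expansion, degrees -/

open Polynomial Finset
open scoped Classical Pointwise

namespace H315

variable {k : Type} [Field k]

theorem ev_taylor {R : Type} [CommRing R] (π : R) (m : ℕ) (hm : 2 ≤ m) (d : ℕ) (hd : 1 ≤ d)
    (c : ℕ × ℕ → R) (f g δ ε : R) (hδ : π ^ m ∣ δ) (hε : π ^ (m - 1) ∣ ε) :
    π ^ m ∣ ev d c (f + δ) (g + ε) - ev d c f g - ev (d - 1) (cX c) f g * δ
      - ev (d - 1) (cY c) f g * ε := by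
  sorry

theorem ev_taylor2 {R : Type} [CommRing R] (p : ℕ) [Fact p.Prime] [CharP R p] (hp : 3 ≤ p)
    (π : R) (m : ℕ) (hm : 2 ≤ m) (d : ℕ) (hd : 1 ≤ d)
    (c : ℕ × ℕ → R) (hc : ∀ x ∈ Tri d, c x ≠ 0 → p ∣ x.2)
    (f g δ ε : R) (hδ : π ^ m ∣ δ) (hε : π ^ (m - 1) ∣ ε) :
    π ^ (m + 1) ∣ ev d c (f + δ) (g + ε) - ev d c f g - ev (d - 1) (cX c) f g * δ := by
  sorry

theorem natDegree_ev_le (d D h : ℕ) (c : ℕ × ℕ → k[X]) (hc : ∀ x, (c x).natDegree ≤ h)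
    (f g : k[X]) (hf : f.natDegree ≤ D) (hg : g.natDegree ≤ D) :
    (ev d c f g).natDegree ≤ d * D + h := by
  sorry

theorem natDegree_cX_le (h : ℕ) (c : ℕ × ℕ → k[X]) (hc : ∀ x, (c x).natDegree ≤ h) :
    ∀ x, (cX c x).natDegree ≤ h := by
  sorry

theorem natDegree_cY_le (h : ℕ) (c : ℕ × ℕ → k[X]) (hc : ∀ x, (c x).natDegree ≤ h) :
    ∀ x, (cY c x).natDegree ≤ h := by
  sorry

theorem card_Tri (d : ℕ) : 2 * (Tri d).card = (d + 1) * (d + 2) := by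
  sorry

end H315
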