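import Pool.Agent.H315R2.Sq.Defs

/-! # I2: Siegel's lemma over `k[x]` -/

open Polynomial Finset
open scoped Classical Pointwise

namespace H315

variable {k : Type} [Field k]

theorem siegel {ι κ : Type} [Fintype ι] [Fintype κ] (E h : ℕ) (M : ι → κ → k[X])
    (hM : ∀ i j, (M i j).natDegree ≤ E)
    (hh : Fintype.card ι * (h + E + 1) < Fintype.card κ * (h + 1)) :
    ∃ c : κ → k[X], c ≠ 0 ∧ (∀ j, (c j).natDegree ≤ h) ∧ ∀ i, ∑ j, M i j * c j = 0 := by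
  sorry

/-- small solution of a system of linear equations over `k[x]` which has a nonzero solution -/
theorem siegel_rank {ι κ : Type} [Fintype ι] [Fintype κ] (E : ℕ) (M : ι → κ → k[X])
    (hM : ∀ i j, (M i j).natDegree ≤ E)
    (hsol : ∃ c : κ → k[X], c ≠ 0 ∧ ∀ i, ∑ j, M i j * c j = 0) :
    ∃ c : κ → k[X], c ≠ 0 ∧ (∀ j, (c j).natDegree ≤ Fintype.card κ * E) ∧
      ∀ i, ∑ j, M i j * c j = 0 := by
  sorry

theorem siegel_ev {ι : Type} [Fintype ι] (d D h : ℕ) (f : ι → k[X])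
    (hf : ∀ i, (f i).natDegree ≤ D)
    (hh : Fintype.card ι * (h + d * D + 1) < (Tri d).card * (h + 1)) :
    ∃ c : ℕ × ℕ → k[X], (∃ x ∈ Tri d, c x ≠ 0) ∧ (∀ x, (c x).natDegree ≤ h) ∧
      ∀ i, ev d c (f i) (derivative (f i)) = 0 := by
  sorry

theorem van_height {ι : Type} [Fintype ι] (d D : ℕ) (f : ι → k[X])
    (hf : ∀ i, (f i).natDegree ≤ D) (hV : Van d f) :
    ∃ c : ℕ × ℕ → k[X], (∃ x ∈ Tri d, c x ≠ 0) ∧
      (∀ x, (c x).natDegree ≤ (Tri d).card * (d * D)) ∧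
      ∀ i, ev d c (f i) (derivative (f i)) = 0 := by
  sorry

end H315
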