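import Pool.Agent.H315R2.Sq.Defs

/-! # I3: taking `p`-th roots of a vanishing polynomial -/

open Polynomial Finset
open scoped Classical Pointwise

namespace H315

variable {k : Type} [Field k]

theorem van_root (p : ℕ) [Fact p.Prime] [CharP k p] [IsAlgClosed k] (d : ℕ) {ι : Type}
    (f : ι → k[X]) (c : ℕ × ℕ → k[X]) (hne : ∃ x ∈ Tri d, c x ≠ 0)
    (hc : ∀ x ∈ Tri d, c x ≠ 0 → p ∣ x.1 ∧ p ∣ x.2)
    (hv : ∀ i, ev d c (f i) (derivative (f i)) = 0) : Van (d / p) f := by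
  sorry

end H315
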