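import Pool.Agent.H315R2.Sq.Defs
import Pool.Agent.H315R2.Sq.St.D1
import Pool.Agent.H315R2.Sq.St.I1

/-! # I4: transfer of vanishing -/

open Polynomial Finset
open scoped Classical Pointwise

namespace H315

variable {k : Type} [Field k]

theorem transfer (p : ℕ) [Fact p.Prime] (hp : 3 ≤ p) [CharP k p] (D d h : ℕ) (hd : 1 ≤ d)
    (f : k[X]) {ι : Type} (I : Finset ι) (u : ι → k[X]) (S : ι → Finset k)
    (hf : f.natDegree ≤ D)
    (hS : ∀ i ∈ I, ∀ a ∈ S i,
      2 ≤ (f - u i).rootMultiplicity a ∧ ¬ p ∣ (f - u i).rootMultiplicity a)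
    (hbig : d * D + h < (I.biUnion S).card)
    (c : ℕ × ℕ → k[X]) (hc : ∀ x, (c x).natDegree ≤ h)
    (hv : ∀ i ∈ I, ev d c (u i) (derivative (u i)) = 0) :
    ev d c f (derivative f) = 0 ∧ ev (d - 1) (cY c) f (derivative f) = 0 ∧
      ((∀ x ∈ Tri d, c x ≠ 0 → p ∣ x.2) → ev (d - 1) (cX c) f (derivative f) = 0) := by
  sorry

/-- Bonferroni inequality -/
theorem bonferroni {ι X : Type} [LinearOrder ι] (I : Finset ι) (S : ι → Finset X) :
    ∑ i ∈ I, (S i).card ≤ (I.biUnion S).card +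
      ∑ x ∈ (I ×ˢ I).filter (fun x => x.1 < x.2), (S x.1 ∩ S x.2).card := by
  sorry

end H315
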