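import Pool.Agent.H315R2.Sq.Defs
import Pool.Agent.H315R2.Sq.St.I1
import Pool.Agent.H315R2.Sq.St.I2
import Pool.Agent.H315R2.Sq.St.I3
import Pool.Agent.H315R2.Sq.St.I4

/-! # I5: grids with small overlaps in rows and columns -/

open Polynomial Finset
open scoped Classical Pointwise

namespace H315

variable {k : Type} [Field k]

/-- all pairs `x.1 < x.2` -/
def prs (n : ℕ) : Finset (Fin n × Fin n) := univ.filter (fun x => x.1 < x.2)

theorem square_grid (p : ℕ) [Fact p.Prime] (hp : 3 ≤ p) [CharP k p] [IsAlgClosed k]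
    (η : ℝ) (hη : 0 < η) : ∃ N M : ℕ, 2 ≤ N ∧ 2 ≤ M ∧
    ∀ (D : ℕ), 1 ≤ D → ∀ (t : Fin N → k[X]) (u : Fin M → k[X]) (S : Fin N → Fin M → Finset k),
    (∀ j, (t j).natDegree ≤ D) → (∀ i, (u i).natDegree ≤ D) →
    (∀ j i, η * (D : ℝ) ≤ ((S j i).card : ℝ)) →
    (∀ j i, ∀ a ∈ S j i,
      2 ≤ (t j - u i).rootMultiplicity a ∧ ¬ p ∣ (t j - u i).rootMultiplicity a) →
    (∀ i, 2 * ∑ x ∈ prs N, (S x.1 i ∩ S x.2 i).card ≤ D) →
    (∀ j, 2 * ∑ x ∈ prs M, (S j x.1 ∩ S j x.2).card ≤ D) → False := by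
  sorry

end H315
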