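import Pool.Agent.H315R2.Sq.Defs
import Pool.Agent.H315R2.Sq.St.A3
import Pool.Agent.H315R2.Sq.St.F

/-! # X: few pairs with vanishing Wronskian -/

open Polynomial Finset
open scoped Classical Pointwise

namespace H315

variable {k : Type} [Field k]

theorem few_parallel (p : ℕ) [Fact p.Prime] (hp : 5 ≤ p) [CharP k p] [IsAlgClosed k]
    (c : ℝ) (hc : 0 < c) :
    ∃ ε₀ r₀ : ℝ, 0 < ε₀ ∧ ε₀ ≤ 1 / 10 ∧ 0 < r₀ ∧ r₀ ≤ 1 ∧ ∀ α : ℝ, 1 / 2 < α → α ≤ 1 / 2 + ε₀ →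
    ∀ (D : ℕ) (A B : Finset k[X]), NF p α D A B → ratio α A B ≤ r₀ →
    ∀ s₁ ∈ A, ((A.filter (fun s => wronskian s s₁ = 0)).card : ℝ) < c * (A.card : ℝ) := by
  sorry

theorem few_W0 (p : ℕ) [Fact p.Prime] (hp : 5 ≤ p) [CharP k p] [IsAlgClosed k]
    (c : ℝ) (hc : 0 < c) :
    ∃ ε₀ r₀ : ℝ, 0 < ε₀ ∧ ε₀ ≤ 1 / 10 ∧ 0 < r₀ ∧ r₀ ≤ 1 ∧ ∀ α : ℝ, 1 / 2 < α → α ≤ 1 / 2 + ε₀ →
    ∀ (D : ℕ) (A B : Finset k[X]), NF p α D A B → ratio α A B ≤ r₀ →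
    (nW0 A : ℝ) < c * (A.card : ℝ) ^ 2 := by
  sorry

/-- a large part of `A` on an affine `K^p`-line is impossible -/
theorem no_line (p : ℕ) [Fact p.Prime] (hp : 5 ≤ p) [CharP k p] [IsAlgClosed k] :
    ∃ ε₀ r₀ : ℝ, 0 < ε₀ ∧ ε₀ ≤ 1 / 10 ∧ 0 < r₀ ∧ r₀ ≤ 1 ∧ ∀ α : ℝ, 1 / 2 < α → α ≤ 1 / 2 + ε₀ →
    ∀ (D : ℕ) (A B : Finset k[X]), NF p α D A B → ratio α A B ≤ r₀ →
    ∀ Y ⊆ A, (A.card : ℝ) / 4 ≤ (Y.card : ℝ) →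
    (∀ s₁ ∈ Y, ∀ s₂ ∈ Y, ∀ s₃ ∈ Y, wronskian (s₁ - s₂) (s₁ - s₃) = 0) → False := by
  sorry

end H315
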