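import Pool.Agent.H315R2.Sq.Defs
import Pool.Agent.H315R2.Sq.St.B
import Pool.Agent.H315R2.Sq.St.E1
import Pool.Agent.H315R2.Sq.St.I6

/-! # J2: the tiny case -/

open Polynomial Finset
open scoped Classical Pointwise

namespace H315

variable {k : Type} [Field k]

theorem case_tiny (p : ℕ) [Fact p.Prime] (hp : 5 ≤ p) [CharP k p] [IsAlgClosed k]
    (η₃ : ℝ) (h3 : 0 < η₃) : ∃ η₁ : ℝ, 0 < η₁ ∧
    ∃ ε₀ r₀ : ℝ, 0 < ε₀ ∧ ε₀ ≤ 1 / 10 ∧ 0 < r₀ ∧ r₀ ≤ 1 ∧ ∀ α : ℝ, 1 / 2 < α → α ≤ 1 / 2 + ε₀ →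
    ∀ (D : ℕ) (A B : Finset k[X]), NF p α D A B → ratio α A B ≤ r₀ →
    RbarT p A η₁ < 3 / 10 * η₃ * (D : ℝ) := by
  sorry

end H315
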