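import Pool.Agent.H315R2.Sq.Defs
import Pool.Agent.H315R2.Sq.St.J3

/-! # J4: most 6-tuples are good rows -/

open Polynomial Finset
open scoped Classical Pointwise

namespace H315

variable {k : Type} [Field k]

def GoodRow (p D : ℕ) (s : Fin 6 → k[X]) : Prop :=
  (∀ j l, j ≠ l → wronskian (s j) (s l) ≠ 0) ∧
  ∀ j l m, j ≠ l → j ≠ m → l ≠ m →
    3 * ((Rt p (s j)).card + (Rt p (s l)).card + (Rt p (s m)).card +
      ov (s j) (s l) + ov (s j) (s m) + ov (s l) (s m)) ≤ D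

theorem good_rows (p : ℕ) [Fact p.Prime] (hp : 5 ≤ p) [CharP k p] [IsAlgClosed k]
    (θ : ℝ) (hθ : 0 < θ) :
    ∃ ε₀ r₀ : ℝ, 0 < ε₀ ∧ ε₀ ≤ 1 / 10 ∧ 0 < r₀ ∧ r₀ ≤ 1 ∧ ∀ α : ℝ, 1 / 2 < α → α ≤ 1 / 2 + ε₀ →
    ∀ (D : ℕ) (A B : Finset k[X]), NF p α D A B → ratio α A B ≤ r₀ →
    (((Fintype.piFinset (fun _ : Fin 6 => A)).filter (fun s => ¬ GoodRow p D s)).card : ℝ) ≤
      θ * (A.card : ℝ) ^ 6 := by
  sorry

end H315
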