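import Pool.Agent.H315R2.Sq.Defs
import Pool.Agent.H315R2.Sq.St.B
import Pool.Agent.H315R2.Sq.St.G
import Pool.Agent.H315R2.Sq.St.H2
import Pool.Agent.H315R2.Sq.St.H3
import Pool.Agent.H315R2.Sq.St.J4

/-! # J5: most good rows lie on conics -/

open Polynomial Finset
open scoped Classical Pointwise

namespace H315

variable {k : Type} [Field k]

/-- the vector of the point `(s,s')` over the field of fractions of `k[x]` -/
noncomputable def kvec (s : k[X]) : Fin 6 → FractionRing k[X] :=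
  cvec (algebraMap k[X] (FractionRing k[X]) s) (algebraMap k[X] (FractionRing k[X]) (derivative s))

theorem conic_tuples (p : ℕ) [Fact p.Prime] (hp : 5 ≤ p) [CharP k p] [IsAlgClosed k]
    (θ : ℝ) (hθ : 0 < θ) :
    ∃ ε₀ r₀ : ℝ, 0 < ε₀ ∧ ε₀ ≤ 1 / 10 ∧ 0 < r₀ ∧ r₀ ≤ 1 ∧ ∀ α : ℝ, 1 / 2 < α → α ≤ 1 / 2 + ε₀ →
    ∀ (D : ℕ) (A B : Finset k[X]), NF p α D A B → ratio α A B ≤ r₀ →
    (((Fintype.piFinset (fun _ : Fin 6 => A)).filter (fun s => GoodRow p D s ∧
      LinearIndependent (FractionRing k[X]) (fun j => kvec (s j)))).card : ℝ) ≤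
      θ * (A.card : ℝ) ^ 6 := by
  sorry

end H315
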