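import Pool.Agent.H315R2.Sq.Defs
import Pool.Agent.H315R2.Sq.St.A1
import Pool.Agent.H315R2.Sq.St.C3
import Pool.Agent.H315R2.Sq.St.J6

/-! # K1: growth over an algebraically closed field, and over any field of characteristic `p` -/

open Polynomial Finset
open scoped Classical Pointwise

namespace H315

variable {k : Type} [Field k]

theorem growth (p : ℕ) [Fact p.Prime] (hp : 5 ≤ p) [CharP k p] [IsAlgClosed k] :
    ∃ α c : ℝ, 1 / 2 < α ∧ 0 < c ∧ ∀ A B : Finset k[X], A.Nonempty → B.Nonempty → SqSet p A →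
      c * ((A.card : ℝ) * (B.card : ℝ)) ^ α ≤ ((A + B).card : ℝ) := by
  sorry

/-- growth for sets of nonzero squares in `F_p[x]` -/
theorem growth_Fp (p : ℕ) [Fact p.Prime] (hp : 5 ≤ p) :
    ∃ α c : ℝ, 1 / 2 < α ∧ 0 < c ∧ ∀ A B : Finset (ZMod p)[X], A.Nonempty → B.Nonempty →
      (∀ s ∈ A, s ≠ 0 ∧ IsSquare s) →
      c * ((A.card : ℝ) * (B.card : ℝ)) ^ α ≤ ((A + B).card : ℝ) := by
  sorry

end H315
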