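import Pool.Agent.H315R2.Sq.Defs

/-! # K2: no coset of a nontrivial subgroup of `F_p[x]` consists of squares (`p ≥ 5`) -/

open Polynomial Finset
open scoped Classical Pointwise

namespace H315

theorem no_coset (p : ℕ) [Fact p.Prime] (hp : 5 ≤ p) (a h : (ZMod p)[X]) (hh : h ≠ 0) :
    ∃ j : ZMod p, ¬ IsSquare (a + C j * h) := by
  sorry

theorem add_self_card (p : ℕ) [Fact p.Prime] (hp : 5 ≤ p) (A : Finset (ZMod p)[X])
    (hA : ∀ f ∈ A, IsSquare f) (h2 : 2 ≤ A.card) : A.card + 1 ≤ (A + A).card := by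
  sorry

end H315
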