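import Pool.Agent.H315R2.Sq.Defs
import Pool.Agent.H315R2.Sq.St.K1
import Pool.Agent.H315R2.Sq.St.K2

/-! # K3: the final theorem -/

open Polynomial Finset
open scoped Classical Pointwise

namespace H315

theorem q1_of_five_le (p : ℕ) [Fact p.Prime] (hp : 5 ≤ p) :
    ∃ ε : ℝ, 0 < ε ∧ ∀ A : Finset (ZMod p)[X], (∀ f ∈ A, IsSquare f) →
      (A.card : ℝ) ^ (1 + ε) ≤ ((A + A).card : ℝ) := by
  sorry

theorem q1_three_false :
    ∃ A : Finset (ZMod 3)[X], (∀ f ∈ A, IsSquare f) ∧ A.card = 3 ∧ (A + A).card = 3 := by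
  sorry

end H315
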